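import Pool.Agent.P.MP_be5a37_co.Defs
import Pool.Agent.P.MP_be5a37_co.Hyper

set_option autoImplicit false

namespace Pool.Agent.Results.MP_be5a37_co.FracHypergraph

open Pool.Agent.P.MP_be5a37_co

theorem result (r q n : ℕ) (hr : 2 ≤ r) (hq : r < q) (G : Finset (Finset (Fin n)))
    (hG : ∀ e ∈ G, e.card = r)
    (hdeg : ∀ T : Finset (Fin n), T.card = r - 1 →
      (1 - (((r : ℝ) - 1) / (10000 * (q : ℝ))) ^ (r - 1)) * (n : ℝ) ≤
        ((G.filter fun e => T ⊆ e).card : ℝ)) :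
    ∃ w : Finset (Fin n) → ℝ, IsFracDecomp q r G w := by
  obtain ⟨j, rfl⟩ : ∃ j, r = j + 2 := ⟨r - 2, by omega⟩
  refine hyper_main j q hq.le G hG fun T hT => ?_
  have h := hdeg T hT
  have e1 : ((j + 2 : ℕ) : ℝ) - 1 = ((j + 1 : ℕ) : ℝ) := by push_cast; ring
  have e2 : j + 2 - 1 = j + 1 := rfl
  rw [e1, e2] at h
  simpa using h

end Pool.Agent.Results.MP_be5a37_co.FracHypergraph
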