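import Pool.Agent.P.MP_be5a37_co.KMain

set_option autoImplicit false

namespace Pool.Agent.Results.MP_be5a37_co.GraphBound

open Pool.Agent.P.MP_be5a37_co

theorem result (q : ℕ) (hq : 3 ≤ q) (c : ℝ)
    (hc : 1 - 1 / (2 * (q : ℝ) + 60 * (q : ℝ) ^ (2 / 3 : ℝ)) < c) :
    ∃ n₀ : ℕ, ∀ n : ℕ, n₀ ≤ n → ∀ (G : SimpleGraph (Fin n)) [DecidableRel G.Adj],
      q.choose 2 ∣ G.edgeFinset.card → (∀ v, q - 1 ∣ G.degree v) →
      (∀ v, c * (n : ℝ) ≤ (G.degree v : ℝ)) →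
      ∃ D : Finset (Finset (Fin n)), (∀ K ∈ D, G.IsNClique q K) ∧
        ∀ u v, G.Adj u v → ∃! K, K ∈ D ∧ u ∈ K ∧ v ∈ K := by
  have hq0 : (0 : ℝ) ≤ q := Nat.cast_nonneg q
  have hq3 : (3 : ℝ) ≤ q := by exact_mod_cast hq
  have h3 : ((q : ℝ) ^ (1 / 3 : ℝ)) ^ 3 = q := by
    rw [← Real.rpow_natCast, ← Real.rpow_mul hq0]; norm_num
  have h2 : ((q : ℝ) ^ (1 / 3 : ℝ)) ^ 2 = (q : ℝ) ^ (2 / 3 : ℝ) := by
    rw [← Real.rpow_natCast, ← Real.rpow_mul hq0]; norm_num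
  have h1 : 1.44 ≤ (q : ℝ) ^ (1 / 3 : ℝ) := by
    refine le_of_pow_le_pow_left₀ (n := 3) (by norm_num) (Real.rpow_nonneg hq0 _) ?_
    rw [h3]
    norm_num
    linarith
  refine Kq.decomp_of_frac (by omega) ?_ hc (Kq.kfp_of_frac fun V _ _ G _ hdeg => ?_)
  · have h4 : 0 ≤ (q : ℝ) ^ (2 / 3 : ℝ) := Real.rpow_nonneg hq0 _
    have := one_div_le_one_div_of_le (show 0 < 2 * (q : ℝ) by linarith)
      (show 2 * (q : ℝ) ≤ 2 * (q : ℝ) + 60 * (q : ℝ) ^ (2 / 3 : ℝ) by linarith)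
    linarith
  · refine graph_main q _ h1 h3.symm (by omega) G fun v => ?_
    rw [h3, h2]
    exact hdeg v

end Pool.Agent.Results.MP_be5a37_co.GraphBound
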