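import Pool.Agent.P.MP_be5a37_co.LbE

set_option autoImplicit false

namespace Pool.Agent.Results.MP_be5a37_co.ParityBarrier

open Pool.Agent.P.MP_be5a37_co.Lb

theorem result (r : ℕ) (hr : 3 ≤ r) : 1 - 1 / 2 ^ (r - 1) ≤ threshold (r + 1) r := by
  obtain ⟨k, rfl⟩ : ∃ k, r = k + 2 := ⟨r - 2, by omega⟩
  exact parity_main k (by omega)

end Pool.Agent.Results.MP_be5a37_co.ParityBarrier
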