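import Pool.Agent.P.MP_be5a37_co.LbF

set_option autoImplicit false

namespace Pool.Agent.Results.MP_be5a37_co.TetraLower

open Pool.Agent.P.MP_be5a37_co.Lb

theorem result : (66 - √6) / 75 ≤ threshold 4 3 := tetra_main

end Pool.Agent.Results.MP_be5a37_co.TetraLower
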